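import Mathlib
import Pool.Agent.H5.RO5

/-!
The Erdos-Graham question: if every cofinite part of `A` is a basis and the orders are bounded,
then `A` has a restricted order.
-/

set_option autoImplicit false

namespace Pool.Agent.Results.MP_d790dd_nt.RestrictedOrder

/-- every large integer is a sum `a_1 + ... + a_k` with `k ≤ h` and all `a_i` in `A`, repetitions
allowed -/
def IsBasis (A : Set ℕ) (h : ℕ) : Prop :=
  ∃ N : ℕ, ∀ m : ℕ, N ≤ m → ∃ k : ℕ, k ≤ h ∧ ∃ a : Fin k → ℕ, (∀ i, a i ∈ A) ∧ ∑ i, a i = m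

/-- `A` is a basis and its order is `h` -/
def HasOrder (A : Set ℕ) (h : ℕ) : Prop := IsLeast {k : ℕ | IsBasis A k} h

/-- every large integer is a sum of at most `t` pairwise distinct elements of `A` -/
def IsRestrictedBasis (A : Set ℕ) (t : ℕ) : Prop :=
  ∃ N : ℕ, ∀ m : ℕ, N ≤ m → ∃ k : ℕ, k ≤ t ∧ ∃ a : Fin k → ℕ, Function.Injective a ∧
    (∀ i, a i ∈ A) ∧ ∑ i, a i = m

/-- `A` has a restricted order and it is `t` -/
def HasRestrictedOrder (A : Set ℕ) (t : ℕ) : Prop := IsLeast {k : ℕ | IsRestrictedBasis A k} t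

theorem result (A : Set ℕ) (h : ℕ)
    (hA : ∀ F : Set ℕ, F.Finite → ∃ k : ℕ, k ≤ h ∧ HasOrder (A \ F) k) :
    ∀ F : Set ℕ, F.Finite → ∃ t : ℕ, HasRestrictedOrder (A \ F) t := by
  intro F hF
  obtain ⟨t, N, ht⟩ := Pool.Agent.H5.RO.main (A \ F) h (by
    intro F'
    obtain ⟨k, hk, ⟨N, hN⟩, -⟩ := hA (F ∪ (F' : Set ℕ)) (hF.union F'.finite_toSet)
    refine ⟨N, fun n hn => ?_⟩
    obtain ⟨l, hl, a, ha, hs⟩ := hN n hn
    refine ⟨Finset.univ.val.map a, ?_, ?_, ?_⟩
    · simpa using hl.trans hk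
    · intro x hx
      rw [Multiset.mem_map] at hx
      obtain ⟨i, -, rfl⟩ := hx
      have := ha i
      simp only [Set.mem_sdiff, Set.mem_union, Finset.mem_coe, not_or] at this
      exact ⟨⟨this.1, this.2.1⟩, this.2.2⟩
    · exact hs)
  have hex : ∃ t, IsRestrictedBasis (A \ F) t := by
    refine ⟨t, N, fun m hm => ?_⟩
    obtain ⟨s, hs1, hs2, hs3⟩ := ht m hm
    refine ⟨s.card, hs1, fun i => s.equivFin.symm i, ?_, ?_, ?_⟩
    · intro i j hij
      exact s.equivFin.symm.injective (Subtype.ext hij)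
    · intro i
      exact hs2 (s.equivFin.symm i).2
    · rw [← hs3, ← Finset.sum_coe_sort s]
      exact Fintype.sum_equiv s.equivFin.symm _ _ (fun i => rfl)
  classical
  exact ⟨Nat.find hex, Nat.find_spec hex, fun k hk => Nat.find_min' hex hk⟩

end Pool.Agent.Results.MP_d790dd_nt.RestrictedOrder
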